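import Pool.Agent.Lib.MP_019aa5_co.Final

/-!
One convex planar triangulation and one generic point such that, over every field, the visible
monomials are linearly dependent modulo a suitable linear system of parameters.
-/

set_option autoImplicit false

open Classical MvPolynomial Geometry

namespace Pool.Agent.Results.MP_019aa5_co.EveryField

universe u

section Defs

variable {V : Type} [AddCommGroup V] [Module ℝ V] (k : Type u) [Field k]

/-- The Stanley-Reisner ideal: generated by the squarefree monomials of the nonempty sets of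
vertices that are not faces. -/
noncomputable def faceIdeal (K : SimplicialComplex ℝ V) : Ideal (MvPolynomial K.vertices k) :=
  Ideal.span {P | ∃ S : Finset K.vertices, S.Nonempty ∧
    S.map (Function.Embedding.subtype _) ∉ K.faces ∧ P = ∏ v ∈ S, X v}

/-- The face ring. -/
abbrev FaceRing (K : SimplicialComplex ℝ V) : Type u := MvPolynomial K.vertices k ⧸ faceIdeal k K

/-- The ideal of the face ring generated by the images of the polynomials `θ i`. -/
noncomputable def parIdeal (K : SimplicialComplex ℝ V) {d : ℕ}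
    (θ : Fin d → MvPolynomial K.vertices k) : Ideal (FaceRing k K) :=
  Ideal.span (Set.range fun i => Ideal.Quotient.mk (faceIdeal k K) (θ i))

/-- The face ring modulo the images of the polynomials `θ i`. -/
abbrev Red (K : SimplicialComplex ℝ V) {d : ℕ} (θ : Fin d → MvPolynomial K.vertices k) : Type u :=
  FaceRing k K ⧸ parIdeal k K θ

/-- Linear forms with a finite-dimensional quotient. -/
def IsLsop (K : SimplicialComplex ℝ V) {d : ℕ} (θ : Fin d → MvPolynomial K.vertices k) : Prop :=
  (∀ i, (θ i).IsHomogeneous 1) ∧ Module.Finite k (Red k K θ)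

variable [TopologicalSpace V]

/-- The side of the simplex `F` opposite to `v` is visible from `x`: the point `x` and the
interior of `F` lie strictly on opposite sides of the affine span of `F` minus `v`. -/
def Visible (x : V) (F : Finset V) (v : V) : Prop :=
  ∀ y ∈ interior (convexHull ℝ (F : Set V)), (affineSpan ℝ ((F : Set V) \ {v})).SOppSide x y

/-- The face monomial of the set of vertices of `F` whose opposite side is visible from `x`. -/
noncomputable def visMon (K : SimplicialComplex ℝ V) (x : V) (F : Finset V) :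
    MvPolynomial K.vertices k :=
  ∏ v ∈ (F.subtype (· ∈ K.vertices)).filter (fun v => Visible x F v.1), X v

/-- The image of that monomial in the quotient, for a facet `F`. -/
noncomputable def visImg (K : SimplicialComplex ℝ V) (x : V) {d : ℕ}
    (θ : Fin d → MvPolynomial K.vertices k) (F : K.facets) : Red k K θ :=
  Ideal.Quotient.mk (parIdeal k K θ) (Ideal.Quotient.mk (faceIdeal k K) (visMon k K x F))

/-- These images are linearly independent. -/
def VisIndep (K : SimplicialComplex ℝ V) (x : V) {d : ℕ}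
    (θ : Fin d → MvPolynomial K.vertices k) : Prop :=
  LinearIndependent k (visImg k K x θ)

end Defs

open Pool.Agent.Lib.MP_019aa5_co

theorem sameSide {T : Set E} {v y : E} (hT : T.Nonempty) (hv : v ∉ affineSpan ℝ T)
    (hy : y ∈ interior (convexHull ℝ (insert v T))) : (affineSpan ℝ T).SSameSide y v := by
  have h1 : ∀ z ∈ convexHull ℝ (insert v T), (affineSpan ℝ T).WSameSide z v := by
    intro z hz
    rw [convexHull_insert hT] at hz
    obtain ⟨_, rfl, p, hp, hz⟩ := mem_convexJoin.1 hz
    rw [segment_symm, segment_eq_image_lineMap] at hz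
    obtain ⟨t, ht, rfl⟩ := hz
    exact AffineSubspace.wSameSide_lineMap_left _ (convexHull_subset_affineSpan _ hp) ht.1
  refine ⟨h1 y (interior_subset hy), fun hs => ?_, hv⟩
  have h2 : ∀ᶠ t in nhdsWithin (0 : ℝ) (Set.Iio 0),
      AffineMap.lineMap y v t ∈ convexHull ℝ (insert v T) :=
    (AffineMap.lineMap_continuous.continuousAt.eventually_mem
      (by simpa using mem_interior_iff_mem_nhds.1 hy)).filter_mono nhdsWithin_le_nhds
  obtain ⟨t, h3, h4⟩ := (h2.and self_mem_nhdsWithin).exists
  exact (h1 _ h3).not_sOppSide (AffineSubspace.sOppSide_lineMap_left hs hv h4)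

theorem pt_inj : Function.Injective pt := fun i j h => by
  have h0 : (px i : ℝ) = px j := by simpa using congrArg (· 0) h
  have h1 : (py i : ℝ) = py j := by simpa using congrArg (· 1) h
  have h2 : ∀ i j : Fin 6, px i = px j → py i = py j → i = j := by decide
  exact h2 i j (by exact_mod_cast h0) (by exact_mod_cast h1)

/-- the vertices as an embedding -/
noncomputable def em : Fin 6 ↪ E := ⟨pt, pt_inj⟩

theorem coe_em (S : Finset (Fin 6)) : ((S.map em : Finset E) : Set E) = pt '' S :=
  Finset.coe_map _ _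

/-- the triangulation -/
noncomputable def KK : SimplicialComplex ℝ E where
  faces := {s | ∃ S ∈ Delta, S.Nonempty ∧ s = S.map em}
  isRelLowerSet_faces := by
    rintro _ ⟨S, hS, h, rfl⟩
    refine ⟨h.map, fun t ht h' => ?_⟩
    obtain ⟨T, hT, rfl⟩ := Finset.subset_map_iff.1 ht
    exact ⟨T, down_closed S hS T hT, Finset.map_nonempty.1 h', rfl⟩
  indep := by
    rintro _ ⟨S, hS, -, rfl⟩
    exact (affineIndependent_face S hS).range.mono (t := Set.range _) (fun x hx => by
      obtain ⟨i, hi, rfl⟩ := Finset.mem_map.1 hx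
      exact ⟨⟨i, hi⟩, rfl⟩)
  inter_subset_convexHull := by
    rintro _ _ ⟨S, hS, -, rfl⟩ ⟨T, hT, -, rfl⟩
    rw [coe_em, coe_em, hull_inter S hS T hT, Finset.coe_inter, Set.image_inter pt_inj]

theorem space_eq : KK.space = ⋃ S ∈ Delta, convexHull ℝ (pt '' (S : Set (Fin 6))) := by
  ext y
  simp only [SimplicialComplex.mem_space_iff, Set.mem_iUnion]
  constructor
  · rintro ⟨_, ⟨S, hS, -, rfl⟩, h⟩
    exact ⟨S, hS, coe_em S ▸ h⟩
  · rintro ⟨S, hS, h⟩
    refine ⟨_, ⟨S, hS, ?_, rfl⟩, (coe_em S).symm ▸ h⟩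
    simpa using convexHull_nonempty_iff.1 ⟨y, h⟩

theorem pure_list : ∀ S ∈ faceList, ∃ T ∈ faceList, S ⊆ T ∧ T.card = 3 := by decide +kernel

theorem facet {S : Finset (Fin 6)} (hS : S ∈ Delta) (h : S.card = 3) : S.map em ∈ KK.facets := by
  refine ⟨⟨S, hS, Finset.card_pos.1 (by omega), rfl⟩, ?_⟩
  rintro _ ⟨T, hT, -, rfl⟩ h'
  exact Finset.eq_of_subset_of_card_le h' (by simpa [h] using card_le T hT)

/-- the vertices as elements of the vertex set -/
noncomputable def vt : Fin 6 ↪ KK.vertices :=
  ⟨fun i => ⟨pt i, {i}, singletons_mem i, by simp, by simp [em]⟩,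
    fun _ _ h => pt_inj (congrArg Subtype.val h)⟩

theorem vt_surj (v : KK.vertices) : ∃ i, vt i = v := by
  obtain ⟨v, S, -, -, h⟩ := v
  obtain ⟨i, -, hi⟩ := Finset.mem_map.1 (h ▸ Finset.mem_singleton_self v)
  exact ⟨i, Subtype.ext hi⟩

theorem visible_iff {S : Finset (Fin 6)} (hS : S ∈ Delta) (h : S.card = 3) {v : Fin 6}
    (hv : v ∈ S) : Visible x0 (S.map em) (pt v) ↔
      (affineSpan ℝ (pt '' ((S.erase v : Finset (Fin 6)) : Set (Fin 6)))).SOppSide x0 (pt v) := by
  have ha := affineIndependent_face S hS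
  have e1 : pt '' S \ {pt v} = pt '' ((S.erase v : Finset (Fin 6)) : Set (Fin 6)) := by
    rw [Finset.coe_erase, Set.image_sdiff pt_inj, Set.image_singleton]
  have e2 : pt '' S = insert (pt v) (pt '' ((S.erase v : Finset (Fin 6)) : Set (Fin 6))) := by
    rw [← Set.image_insert_eq, ← Finset.coe_insert, Finset.insert_erase hv]
  have h1 : pt v ∉ affineSpan ℝ (pt '' ((S.erase v : Finset (Fin 6)) : Set (Fin 6))) := by
    intro hm
    have := (ha.mem_affineSpan_iff ⟨v, hv⟩ {i | i.1 ≠ v}).1 (affineSpan_mono ℝ ?_ hm)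
    · exact this rfl
    · rintro _ ⟨i, hi, rfl⟩
      exact ⟨⟨i, (Finset.mem_erase.1 hi).2⟩, (Finset.mem_erase.1 hi).1, rfl⟩
  have h2 : (pt '' ((S.erase v : Finset (Fin 6)) : Set (Fin 6))).Nonempty := by
    rw [Set.image_nonempty, Finset.coe_nonempty, ← Finset.card_pos, Finset.card_erase_of_mem hv]
    omega
  have h3 : (interior (convexHull ℝ (pt '' S))).Nonempty := by
    rw [interior_convexHull_nonempty_iff_affineSpan_eq_top, Set.image_eq_range,
      ha.affineSpan_eq_top_iff_card_eq_finrank_add_one]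
    simp [h]
  unfold Visible
  rw [coe_em, e1]
  rw [e2] at h3 ⊢
  obtain ⟨y, hy⟩ := h3
  exact ⟨fun H => (H y hy).trans_sSameSide (sameSide h2 h1 hy),
    fun H z hz => H.trans_sSameSide (sameSide h2 h1 hz).symm⟩

variable (k : Type u) [Field k]

theorem visMon_eq {S G : Finset (Fin 6)} (hS : S ∈ Delta) (h : S.card = 3)
    (hG : S.filter (fun v => (affineSpan ℝ (pt '' ((S.erase v : Finset (Fin 6)) :
      Set (Fin 6)))).SOppSide x0 (pt v)) = G) :
    visMon k KK x0 (S.map em) = ∏ i ∈ G, X (vt i) := by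
  rw [visMon, ← Finset.prod_map G vt (fun v => (X v : MvPolynomial KK.vertices k)), ← hG]
  congr 1
  ext v
  obtain ⟨i, rfl⟩ := vt_surj v
  rw [Finset.mem_filter, Finset.mem_subtype, Finset.mem_map', Finset.mem_filter]
  exact (and_congr_left' (Finset.mem_map' em)).trans (and_congr_right fun hi => visible_iff hS h hi)

/-- the linear system of parameters -/
noncomputable def th : Fin 3 → MvPolynomial KK.vertices k :=
  ![X (vt 3) - X (vt 1) - X (vt 2), X (vt 4) - X (vt 0) - X (vt 2), X (vt 5) - X (vt 0) - X (vt 1)]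

theorem alg {A : Type u} [CommRing A] [Algebra k A] (q : MvPolynomial KK.vertices k →ₐ[k] A)
    (hs : Function.Surjective q) (hI : ∀ P ∈ faceIdeal k KK, q P = 0) (h : ∀ i, q (th k i) = 0) :
    Module.Finite k A ∧
      q (X (vt 0) * X (vt 4)) + q (X (vt 1) * X (vt 5)) + q (X (vt 2) * X (vt 3)) = 0 := by
  have nonf : ∀ S : Finset (Fin 6), S ∉ Delta → ∏ i ∈ S, q (X (vt i)) = 0 := fun S hS => by
    rw [← map_prod]
    refine hI _ (Ideal.subset_span ⟨S.map vt, ?_, ?_, ?_⟩)
    · rw [Finset.map_nonempty, Finset.nonempty_iff_ne_empty]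
      rintro rfl
      exact hS (by decide +kernel)
    · rintro ⟨T, hT, -, h⟩
      rw [Finset.map_map] at h
      exact hS (Finset.map_injective em h ▸ hT)
    · rw [Finset.prod_map]
  have n05 := nonf {0, 5} (by decide +kernel)
  have n13 := nonf {1, 3} (by decide +kernel)
  have n24 := nonf {2, 4} (by decide +kernel)
  have n012 := nonf {0, 1, 2} (by decide +kernel)
  rw [Finset.prod_insert (by decide)] at n012
  rw [Finset.prod_pair (by decide)] at n05 n13 n24 n012
  have r3 := h 0
  have r4 := h 1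
  have r5 := h 2
  simp only [th, Matrix.cons_val, map_sub, sub_sub, sub_eq_zero, map_add] at r3 r4 r5
  rw [r5] at n05
  rw [r3] at n13
  rw [r4] at n24
  refine ⟨?_, by simp only [map_mul, r3, r4, r5]; linear_combination n05 + n13 + n24⟩
  have hi : ∀ {a : A}, a ^ 3 = 0 → IsIntegral k a := fun h =>
    ⟨Polynomial.X ^ 3, Polynomial.monic_X_pow 3, by simpa using h⟩
  have h0 := hi (a := q (X (vt 0))) (by
    linear_combination (q (X (vt 0)) - q (X (vt 1))) * n05 + q (X (vt 0)) * n13 - n012)
  have h1 := hi (a := q (X (vt 1))) (by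
    linear_combination (q (X (vt 1)) - q (X (vt 2))) * n13 + q (X (vt 1)) * n24 - n012)
  have h2 := hi (a := q (X (vt 2))) (by
    linear_combination (q (X (vt 2)) - q (X (vt 0))) * n24 + q (X (vt 2)) * n05 - n012)
  have h3 : ∀ i, IsIntegral k (q (X (vt i))) := fun i => by
    fin_cases i
    exacts [h0, h1, h2, (r3 ▸ h1.add h2 : IsIntegral k (q (X (vt 3)))),
      (r4 ▸ h0.add h2 : IsIntegral k (q (X (vt 4)))), (r5 ▸ h0.add h1 : IsIntegral k (q (X (vt 5))))]
  have : Finite KK.vertices := Finite.of_surjective vt vt_surj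
  have : Algebra.FiniteType k A := .of_surjective q hs
  have : Algebra.IsIntegral k A := ⟨fun r => by
    obtain ⟨P, rfl⟩ := hs r
    induction P using MvPolynomial.induction_on with
    | C a => exact q.commutes a ▸ isIntegral_algebraMap
    | add p q hp hq => rw [map_add]; exact hp.add hq
    | mul_X p v hp => obtain ⟨i, rfl⟩ := vt_surj v; rw [map_mul]; exact hp.mul (h3 i)⟩
  exact Algebra.IsIntegral.finite

/-- the quotient map -/
noncomputable def qm : MvPolynomial KK.vertices k →ₐ[k] Red k KK (th k) :=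
  (Ideal.Quotient.mkₐ k _).comp (Ideal.Quotient.mkₐ k (faceIdeal k KK))

theorem alg' : Module.Finite k (Red k KK (th k)) ∧ qm k (X (vt 0) * X (vt 4)) +
    qm k (X (vt 1) * X (vt 5)) + qm k (X (vt 2) * X (vt 3)) = 0 := by
  have h := alg k (A := Red k KK (th k)) (qm k)
    (Ideal.Quotient.mk_surjective.comp Ideal.Quotient.mk_surjective)
    (fun _ h => (congrArg (Ideal.Quotient.mk _) (Ideal.Quotient.eq_zero_iff_mem.2 h)).trans
      (map_zero _))
    fun i => Ideal.Quotient.eq_zero_iff_mem.2 (Ideal.subset_span (Set.mem_range_self i))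
  exact h

theorem result : ∃ (K : SimplicialComplex ℝ (EuclideanSpace ℝ (Fin 2)))
    (x : EuclideanSpace ℝ (Fin 2)),
    K.faces.Finite ∧ (∀ F ∈ K.facets, F.card = 3) ∧ Convex ℝ K.space ∧ x ∈ K.space ∧
    (∀ H ∈ K.faces, H.card = 2 → x ∉ affineSpan ℝ (H : Set (EuclideanSpace ℝ (Fin 2)))) ∧
    ∀ (k : Type u) [Field k], ∃ θ : Fin 3 → MvPolynomial K.vertices k,
      IsLsop k K θ ∧ ¬ VisIndep k K x θ := by
  refine ⟨KK, x0, (Delta.finite_toSet.image (·.map em)).subset ?_, ?_, space_eq ▸ convex_union,
    space_eq ▸ x0_mem_union, ?_, fun k _ => ⟨th k, ⟨fun i => ?_, (alg' k).1⟩, fun hli => ?_⟩⟩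
  · rintro _ ⟨S, hS, -, rfl⟩
    exact ⟨S, hS, rfl⟩
  · rintro _ ⟨⟨S, hS, hn, rfl⟩, h⟩
    obtain ⟨T, hT, h1, h2⟩ := pure_list S ((mem_Delta S).1 hS)
    rw [h ⟨T, (mem_Delta T).2 hT, hn.mono h1, rfl⟩ (Finset.map_subset_map.2 h1),
      Finset.card_map, h2]
  · rintro _ ⟨S, hS, -, rfl⟩ h
    rw [coe_em]
    exact x0_generic S hS (by rw [Finset.card_map] at h; omega)
  · fin_cases i <;>
    exact ((isHomogeneous_X k _).sub (isHomogeneous_X k _)).sub (isHomogeneous_X k _)
  · have m1 : ({0, 3, 4} : Finset (Fin 6)) ∈ Delta := by decide +kernel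
    have m2 : ({1, 4, 5} : Finset (Fin 6)) ∈ Delta := by decide +kernel
    have m3 : ({2, 3, 5} : Finset (Fin 6)) ∈ Delta := by decide +kernel
    have v1 := visMon_eq k m1 rfl (visible_filter 0 3 4 {0, 4} (by decide) (by decide) (by decide)
      (by decide) (by decide) (by decide) (by decide) (by decide) (by decide) (by decide))
    have v2 := visMon_eq k m2 rfl (visible_filter 1 4 5 {1, 5} (by decide) (by decide) (by decide)
      (by decide) (by decide) (by decide) (by decide) (by decide) (by decide) (by decide))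
    have v3 := visMon_eq k m3 rfl (visible_filter 2 3 5 {2, 3} (by decide) (by decide) (by decide)
      (by decide) (by decide) (by decide) (by decide) (by decide) (by decide) (by decide))
    rw [Finset.prod_pair (by decide)] at v1 v2 v3
    let g : Fin 3 → KK.facets := ![⟨_, facet m1 rfl⟩, ⟨_, facet m2 rfl⟩, ⟨_, facet m3 rfl⟩]
    have hg : Function.Injective g := fun i j h => by
      have h' := congrArg Subtype.val h
      fin_cases i <;> fin_cases j <;>
        first | rfl | exact absurd (Finset.map_injective em h') (by decide)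
    refine one_ne_zero (Fintype.linearIndependent_iff.1 (LinearIndependent.comp hli g hg) (fun _ => 1) ?_ 0)
    rw [Fin.sum_univ_three, ← (alg' k).2, ← v1, ← v2, ← v3]
    simp only [one_smul]
    rfl

end Pool.Agent.Results.MP_019aa5_co.EveryField
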