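import Pool.Agent.Lib.MP_019aa5_co.T3Alg

/-!
One convex triangulation in three-space and one generic point such that, over every field, linear
systems of parameters exist and modulo each of them the visible monomials do not span.
-/

set_option autoImplicit false

open Geometry

namespace Pool.Agent.Results.MP_019aa5_co.EveryLsop

open Pool.Agent.Lib.MP_019aa5_co.T3

universe u

theorem result : ∃ (K : SimplicialComplex ℝ (EuclideanSpace ℝ (Fin 3)))
    (x : EuclideanSpace ℝ (Fin 3)),
    K.faces.Finite ∧ (∀ F ∈ K.facets, F.card = 4) ∧ Convex ℝ K.space ∧ x ∈ K.space ∧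
    (∀ T ∈ K.faces, T.card = 3 → x ∉ affineSpan ℝ (T : Set (EuclideanSpace ℝ (Fin 3)))) ∧
    ∀ (k : Type u) [Field k], (∃ θ : Fin 4 → MvPolynomial K.vertices k, IsLsop k K θ) ∧
      ∀ θ : Fin 4 → MvPolynomial K.vertices k, IsLsop k K θ → ¬ VisSpan k K x θ := by
  refine ⟨KK, pnt X0, (Set.finite_range fun S : Finset (Fin 9) => S.map em).subset ?_,
    fun F h => ?_, convex, x_mem, generic, fun k _ => ⟨⟨_, lsop k⟩, fun _ h => not_span h.1⟩⟩
  · rintro _ ⟨_, S, -, -, rfl⟩
    exact ⟨S, rfl⟩
  · obtain ⟨f, rfl⟩ := facet h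
    rw [Finset.card_map, fc_card]

end Pool.Agent.Results.MP_019aa5_co.EveryLsop
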